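import Pool.Agent.Q93.EF.Main

/-!
# Exact factorizations of countably infinite groups into two infinite subsets

Every countably infinite group `G` has infinite subsets `A`, `B` such that every element of `G`
is uniquely a product `a * b` with `a ∈ A`, `b ∈ B`.

Proof. If some infinite subgroup has infinite index, take a transversal times the subgroup; a
factorization of a subgroup extends to the group by a transversal. Abelian groups and groups with
finite centre in which all noncentral elements have finite centralizers are treated by a greedy
construction. In a counterexample all infinite subgroups have finite index and all abelian
subgroups are finite, hence the FC-centre is finite, and its centralizer is of the second kind.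
-/

namespace Pool.Agent.Results.MP_b3a091_al.ExactFactorization

theorem result (G : Type*) [Group G] [Countable G] [Infinite G] :
    ∃ A B : Set G, A.Infinite ∧ B.Infinite ∧
      ∀ g : G, ∃! p : G × G, p.1 ∈ A ∧ p.2 ∈ B ∧ p.1 * p.2 = g :=
  Pool.Agent.Q93.EF.good_of_countable G

end Pool.Agent.Results.MP_b3a091_al.ExactFactorization
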